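import Pool.Agent.TWP.FinalC

/-! The Polya frequency orders of the classical Tracy-Widom laws: 6 for `β = 1`, 9 for `β = 2`,
13 for `β = 4`. -/

theorem Pool.Agent.Results.MP_4cb661_pr.ClassicalOrders.result :
    (∃! q : ℝ → ℝ, TWP.IsHM q) ∧ ∀ q : ℝ → ℝ, TWP.IsHM q → ∀ β ∈ ({1, 2, 4} : Finset ℕ),
      IsGreatest {r : ℕ | TWP.IsPF r (TWP.classicalDensity q β)} (TWP.classicalOrder β) :=
  TWP.finalC
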